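import Pool.Agent.Helper49.RU.St

/-!
Project RU, module TSC: isolating the phase vectors.
-/

set_option autoImplicit false

namespace Pool.Agent.Helper30.RU

open Pool.Agent.Helper49.RU
open MeasureTheory Filter Topology Complex
open scoped ENNReal Cardinal ComplexConjugate

private theorem two_toReal : (2 : ℝ≥0∞).toReal = 2 := by norm_num

private theorem two_pos' : 0 < (2 : ℝ≥0∞).toReal := by norm_num

/-- a family of contractions on the blocks gives a contraction of the `ℓ²`-sum -/
private theorem exists_diag (q : ∀ k, V k →L[ℂ] V k) (hq : ∀ k, ‖q k‖ ≤ 1) :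
    ∃ T : H →L[ℂ] H, ∀ (v : H) (k : ℕ), (T v) k = q k (v k) := by
  have hle : ∀ (v : H) (k : ℕ), ‖q k (v k)‖ ≤ ‖v k‖ := by
    intro v k
    calc ‖q k (v k)‖ ≤ ‖q k‖ * ‖v k‖ := (q k).le_opNorm _
      _ ≤ 1 * ‖v k‖ := mul_le_mul_of_nonneg_right (hq k) (norm_nonneg _)
      _ = ‖v k‖ := one_mul _
  have hmem : ∀ v : H, Memℓp (fun k => q k (v k)) 2 := by
    intro v
    refine memℓp_gen ?_
    refine Summable.of_nonneg_of_le (fun k => by positivity) (fun k => ?_)
      ((lp.memℓp v).summable two_pos')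
    exact Real.rpow_le_rpow (norm_nonneg _) (hle v k) (by norm_num)
  let T0 : H →ₗ[ℂ] H :=
    { toFun := fun v => ⟨fun k => q k (v k), hmem v⟩
      map_add' := by
        intro f g
        ext k
        simp
      map_smul' := by
        intro c f
        ext k
        simp }
  refine ⟨T0.mkContinuous 1 ?_, ?_⟩
  · intro v
    rw [one_mul]
    exact lp.norm_mono (by norm_num) (fun k => hle v k)
  · intro v k
    rfl

theorem hTSC (hSEQ : StSEQ) : StTSC := by
  intro X hX w ε hw hε
  obtain ⟨kk, Z, P, hkk, hn, hZX, hBig, hP, h1, h2, h3⟩ := hSEQ X hX w (ε / 2) hw (half_pos hε)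
  have hex : ∀ k, ∃ q : V k →L[ℂ] V k, ‖q‖ ≤ 1 ∧ (∀ n, kk n = k → HEq (P n) q) ∧
      ((∀ n, kk n ≠ k) → q = 0) := by
    intro k
    by_cases h : ∃ n, kk n = k
    · obtain ⟨n, rfl⟩ := h
      refine ⟨P n, hP n, ?_, fun h' => absurd rfl (h' n)⟩
      intro m hm
      have e : m = n := hkk.injective hm
      subst e
      rfl
    · push Not at h
      exact ⟨0, by simp, fun n hn' => absurd hn' (h n), fun _ => rfl⟩
  choose q hq1 hq2 hq3 using hex
  obtain ⟨T, hT⟩ := exists_diag q hq1
  have hqn : ∀ n, q (kk n) = P n := fun n => (eq_of_heq (hq2 (kk n) n rfl)).symm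
  refine ⟨{c : Code | ∃ n, ∃ Z' ⊆ Z n, c = ⟨kk n, Z'⟩}, ?_, ⟨?_, ?_⟩, T, ?_⟩
  · rintro c ⟨n, Z', hZ', rfl⟩
    exact hX.1 _ _ _ hZ' (hZX n)
  · rintro k Z1 Z2 h12 ⟨n, Z', hZ', h⟩
    cases h
    exact ⟨n, Z2, h12.trans hZ', rfl⟩
  · intro j
    exact ⟨kk j, hn j, Z j, ⟨j, Z j, Finset.Subset.refl _, rfl⟩, hBig j⟩
  · rintro c ⟨n, Z', hZ', rfl⟩ g hg
    have hgZ : g ∈ Z n := hZ' hg
    obtain ⟨v, hv⟩ : ∃ v : H, v = w ⟨kk n, g⟩ := ⟨_, rfl⟩
    have g1 := h1 n g hgZ
    have g2 := h2 n g hgZ
    have g3 := h3 n g hgZ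
    change ‖T (w ⟨kk n, g⟩) - pz (zeta ⟨kk n, g⟩) (w ⟨kk n, g⟩)‖ ≤ ε
    rw [← hv] at g1 g2 g3 ⊢
    obtain ⟨d, hd⟩ : ∃ d : H, d = T v - pz (zeta ⟨kk n, g⟩) v := ⟨_, rfl⟩
    rw [← hd]
    have hpz : ∀ a, (pz (zeta ⟨kk n, g⟩) v : H) a
        = (inner ℂ (zz g) (v (kk n)) : ℂ) • (zeta ⟨kk n, g⟩) a := by
      intro a
      unfold pz
      rw [lp.coeFn_smul, Pi.smul_apply]
      unfold zeta
      rw [lp.inner_single_left]
    have hdn : ‖d (kk n)‖ ≤ ε / 2 := by
      have e : d (kk n) = P n (v (kk n)) - pz (zz g) (v (kk n)) := by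
        rw [hd, lp.coeFn_sub, Pi.sub_apply, hT, hqn, hpz]
        unfold zeta pz
        rw [lp.single_apply_self]
      rw [e]
      exact g1
    have hdo : ∀ a, a ≠ kk n → d a = q a (v a) := by
      intro a ha
      rw [hd, lp.coeFn_sub, Pi.sub_apply, hT, hpz]
      unfold zeta
      rw [lp.single_apply_ne _ _ _ ha, smul_zero, sub_zero]
    have hdle : ∀ a, a ≠ kk n → ‖d a‖ ^ 2 ≤ ‖v a‖ ^ 2 := by
      intro a ha
      rw [hdo a ha]
      refine pow_le_pow_left₀ (norm_nonneg _) ?_ 2
      calc ‖q a (v a)‖ ≤ ‖q a‖ * ‖v a‖ := (q a).le_opNorm _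
        _ ≤ 1 * ‖v a‖ := mul_le_mul_of_nonneg_right (hq1 a) (norm_nonneg _)
        _ = ‖v a‖ := one_mul _
    have hd0 : ∀ a, a ≠ kk n → (∀ m, kk m ≠ a) → ‖d a‖ ^ 2 = 0 := by
      intro a ha hm
      rw [hdo a ha, hq3 a hm]
      simp
    have key : ∀ s : Finset ℕ, ∑ a ∈ s, ‖d a‖ ^ 2 ≤ ε ^ 2 := by
      intro s
      -- the part below
      have b1 : ∑ a ∈ s.filter (fun a => a < kk n), ‖d a‖ ^ 2 ≤ (ε / 2) ^ 2 := by
        have e1 : ∑ a ∈ s.filter (fun a => a < kk n), ‖d a‖ ^ 2
            ≤ ∑ a ∈ (Finset.range n).image kk, ‖v a‖ ^ 2 := by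
          have e2 : ∑ a ∈ s.filter (fun a => a < kk n), ‖d a‖ ^ 2
              = ∑ a ∈ (s.filter (fun a => a < kk n)).filter
                (fun a => a ∈ (Finset.range n).image kk), ‖d a‖ ^ 2 := by
            symm
            refine Finset.sum_filter_of_ne ?_
            intro a ha hne
            rw [Finset.mem_filter] at ha
            by_contra hcon
            apply hne
            refine hd0 a ha.2.ne ?_
            intro m hm
            apply hcon
            rw [Finset.mem_image]
            refine ⟨m, ?_, hm⟩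
            rw [Finset.mem_range]
            by_contra hmn
            push Not at hmn
            have := hkk.monotone hmn
            rw [hm] at this
            exact absurd ha.2 (not_lt.2 this)
          rw [e2]
          refine (Finset.sum_le_sum (g := fun a => ‖v a‖ ^ 2) ?_).trans
            (Finset.sum_le_sum_of_subset_of_nonneg ?_ ?_)
          · intro a ha
            rw [Finset.mem_filter, Finset.mem_filter] at ha
            exact hdle a ha.1.2.ne
          · intro a ha
            rw [Finset.mem_filter] at ha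
            exact ha.2
          · intro a _ _
            positivity
        refine e1.trans ?_
        rw [Finset.sum_image (fun x _ y _ h => hkk.injective h)]
        exact g2
      -- the part above
      have b3 : ∑ a ∈ s.filter (fun a => kk n < a), ‖d a‖ ^ 2 ≤ (ε / 2) ^ 2 := by
        have e2 : ∑ a ∈ s.filter (fun a => kk n < a), ‖d a‖ ^ 2
            = ∑ a ∈ (s.filter (fun a => kk n < a)).filter
              (fun a => kk (n + 1) ≤ a), ‖d a‖ ^ 2 := by
          symm
          refine Finset.sum_filter_of_ne ?_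
          intro a ha hne
          rw [Finset.mem_filter] at ha
          by_contra hcon
          apply hne
          refine hd0 a ha.2.ne' ?_
          intro m hm
          apply hcon
          rw [← hm] at ha ⊢
          have h5 : n < m := hkk.lt_iff_lt.1 ha.2
          exact hkk.monotone h5
        rw [e2]
        refine (Finset.sum_le_sum (g := fun a => ‖v a‖ ^ 2) ?_).trans
          (g3 _ ?_)
        · intro a ha
          rw [Finset.mem_filter, Finset.mem_filter] at ha
          exact hdle a ha.1.2.ne'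
        · intro a ha
          rw [Finset.mem_filter] at ha
          exact ha.2
      have b2 : ∑ a ∈ s.filter (fun a => a = kk n), ‖d a‖ ^ 2 ≤ (ε / 2) ^ 2 := by
        have e3 : ∑ a ∈ s.filter (fun a => a = kk n), ‖d a‖ ^ 2
            ≤ ∑ a ∈ ({kk n} : Finset ℕ), ‖d a‖ ^ 2 := by
          refine Finset.sum_le_sum_of_subset_of_nonneg ?_ (fun a _ _ => by positivity)
          intro a ha
          rw [Finset.mem_filter] at ha
          rw [Finset.mem_singleton]
          exact ha.2
        refine e3.trans ?_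
        rw [Finset.sum_singleton]
        exact pow_le_pow_left₀ (norm_nonneg _) hdn 2
      have hsplit : ∑ a ∈ s, ‖d a‖ ^ 2 = ∑ a ∈ s.filter (fun a => a < kk n), ‖d a‖ ^ 2
          + ∑ a ∈ s.filter (fun a => a = kk n), ‖d a‖ ^ 2
          + ∑ a ∈ s.filter (fun a => kk n < a), ‖d a‖ ^ 2 := by
        rw [Finset.sum_filter, Finset.sum_filter, Finset.sum_filter, ← Finset.sum_add_distrib,
          ← Finset.sum_add_distrib]
        refine Finset.sum_congr rfl fun a _ => ?_
        rcases lt_trichotomy a (kk n) with h | h | h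
        · simp [h, h.ne, not_lt.2 h.le]
        · simp [h]
        · simp [h, h.ne', not_lt.2 h.le]
      rw [hsplit]
      nlinarith [sq_nonneg ε]
    refine lp.norm_le_of_forall_sum_le two_pos' hε.le ?_
    intro s
    rw [two_toReal]
    have h6 := key s
    simp only [Real.rpow_two]
    exact h6

end Pool.Agent.Helper30.RU
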